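import Pool.Agent.H180.GK.Final
import Pool.Agent.Q149.GK.Union
import Pool.Agent.Q149.GK.Close
import Pool.Agent.Q94.GK.Prod
import Pool.Agent.Q90.GK.Hered
import Pool.Agent.Q90.GK.Init

/-!
# Compact spaces whose square is weakly sigma-metacompact off the diagonal are Gul'ko compact

Questions of Gruenhage: Q1 and Q2 of MP_294ed4_gt, both answered positively.
-/

namespace Pool.Agent.Results.MP_294ed4_gt.GulkoOffDiagonal

universe u

/-- A family `A` of subsets of `Y` is weakly sigma-point-finite: `A` is the union of subfamilies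
`B n`, `n : ℕ`, such that for every point `x` the family `A` is the union of those `B n` only
finitely many members of which contain `x`. -/
def WeaklySigmaPointFinite {Y : Type u} (A : Set (Set Y)) : Prop :=
  ∃ B : ℕ → Set (Set Y), A = ⋃ n, B n ∧
    ∀ x : Y, A = ⋃ n ∈ {n | {s | s ∈ B n ∧ x ∈ s}.Finite}, B n

/-- A space is weakly sigma-metacompact if every open cover of it has a weakly sigma-point-finite
open refinement. -/
def WeaklySigmaMetacompact (Y : Type u) [TopologicalSpace Y] : Prop :=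
  ∀ U : Set (Set Y), (∀ s ∈ U, IsOpen s) → ⋃₀ U = Set.univ →
    ∃ A : Set (Set Y), (∀ s ∈ A, IsOpen s) ∧ ⋃₀ A = Set.univ ∧ (∀ s ∈ A, ∃ t ∈ U, s ⊆ t) ∧
      WeaklySigmaPointFinite A

/-- A Lindelöf Sigma-space: there are a countable family `N` of subsets and a cover `C` by compact
sets such that for `K ∈ C` and open `U ⊇ K` some `F ∈ N` has `K ⊆ F ⊆ U`. -/
def LindelofSigma (Y : Type u) [TopologicalSpace Y] : Prop :=
  ∃ N : Set (Set Y), N.Countable ∧ ∃ C : Set (Set Y), (∀ K ∈ C, IsCompact K) ∧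
    ⋃₀ C = Set.univ ∧ ∀ K ∈ C, ∀ U : Set Y, IsOpen U → K ⊆ U → ∃ F ∈ N, K ⊆ F ∧ F ⊆ U

/-- `C_p(X)`: the continuous real-valued functions with the topology of pointwise convergence
(the subspace topology of the product `X → ℝ`). -/
abbrev Cp (X : Type u) [TopologicalSpace X] : Type u := {f : X → ℝ // Continuous f}

/-- Let `X` be a compact Hausdorff space such that the complement of the diagonal in `X × X` is
weakly sigma-metacompact. Then every subspace of `X × X` is weakly sigma-metacompact (Q1) and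
`X` is Gul'ko compact, that is, `C_p(X)` is a Lindelöf Sigma-space (Q2). -/
theorem result (X : Type u) [TopologicalSpace X] [CompactSpace X] [T2Space X]
    (h : WeaklySigmaMetacompact {p : X × X // p.1 ≠ p.2}) :
    (∀ S : Set (X × X), WeaklySigmaMetacompact S) ∧ LindelofSigma (Cp X) := by
  obtain ⟨h1, N, hN, hK⟩ := Pool.Agent.H180.GK.final Pool.Agent.Q149.GK.union
    Pool.Agent.Q149.GK.close Pool.Agent.Q90.GK.init Pool.Agent.Q94.GK.prod
    Pool.Agent.Q90.GK.hered X h
  refine ⟨h1, N, hN, ?_⟩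
  choose K hK1 hK2 hK3 using hK
  refine ⟨Set.range K, ?_, ?_, ?_⟩
  · rintro _ ⟨z, rfl⟩; exact hK1 z
  · rw [Set.eq_univ_iff_forall]
    intro z
    exact ⟨K z, ⟨z, rfl⟩, hK2 z⟩
  · rintro _ ⟨z, rfl⟩ U hU hKU
    exact hK3 z U hU hKU

end Pool.Agent.Results.MP_294ed4_gt.GulkoOffDiagonal
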